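import Pool.Agent.Lib.MP_7f190d_al.Basic

/-!
# MP_7f190d_al, module K: geodesics through apexes, angles
-/

set_option autoImplicit false

namespace Pool.Agent.Lib.MP_7f190d_al

namespace Kmod

/-! ## Uniqueness of the metric, isometries -/

lemma d_le_of_unit {V : Type} (M M' : GMet V) (h : ∀ u v, M.d u v ≤ 1 → M'.d u v ≤ 1) :
    ∀ (n : ℕ) (u v : V), M.d u v = n → M'.d u v ≤ n := by
  intro n
  induction n with
  | zero =>
    intro u v huv
    have := M.eq0 u v huv
    subst this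
    rw [M'.self]
  | succ n ih =>
    intro u v huv
    obtain ⟨z, h1, h2⟩ := M.geod u v 1 (by omega)
    have a := h u z (by omega)
    have b := ih z v (by omega)
    have c := M'.tri u z v
    omega

lemma d_eq_of_unit {V : Type} (M M' : GMet V) (h : ∀ u v, M.d u v ≤ 1 ↔ M'.d u v ≤ 1)
    (u v : V) : M.d u v = M'.d u v :=
  le_antisymm (d_le_of_unit M' M (fun u v => (h u v).2) _ u v rfl)
    (d_le_of_unit M M' (fun u v => (h u v).1) _ u v rfl)

lemma map_le_of_unit {V : Type} (M : GMet V) (f : V → V)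
    (h : ∀ u v, M.d u v ≤ 1 → M.d (f u) (f v) ≤ 1) :
    ∀ (n : ℕ) (u v : V), M.d u v = n → M.d (f u) (f v) ≤ n := by
  intro n
  induction n with
  | zero =>
    intro u v huv
    have := M.eq0 u v huv
    subst this
    rw [M.self]
  | succ n ih =>
    intro u v huv
    obtain ⟨z, h1, h2⟩ := M.geod u v 1 (by omega)
    have a := h u z (by omega)
    have b := ih z v (by omega)
    have c := M.tri (f u) (f z) (f v)
    omega

lemma iso_of_unit {V G : Type} [Group G] [MulAction G V] (M : GMet V)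
    (h : ∀ (g : G) u v, M.d u v ≤ 1 → M.d (g • u) (g • v) ≤ 1) : Iso G M := by
  intro g x y
  apply le_antisymm
  · exact map_le_of_unit M (fun v => g • v) (h g) _ x y rfl
  · have := map_le_of_unit M (fun v => g⁻¹ • v) (h g⁻¹) _ (g • x) (g • y) rfl
    simpa using this

/-! ## Basics on `CV` -/

section CVbasics

variable {X : Type} {C : ConeDat X}

lemma pt_zero (j : C.J) (y : X) (hy : y ∈ C.Y j) : CV.pt j y hy 0 = CV.base y := by
  simp [CV.pt]

lemma pt_mid (j : C.J) (y : X) (hy : y ∈ C.Y j) (m : ℕ) (h1 : 1 ≤ m) (h2 : m ≤ C.ρ) :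
    CV.pt j y hy m = CV.cone j y hy m ⟨h1, h2⟩ := by
  unfold CV.pt
  rw [dif_neg (by omega), dif_pos h2]

lemma pt_top (j : C.J) (y : X) (hy : y ∈ C.Y j) (m : ℕ) (h : C.ρ < m) :
    CV.pt j y hy m = CV.apex j := by
  unfold CV.pt
  rw [dif_neg (by omega), dif_neg (by omega)]

lemma ctr_pt (j : C.J) (y : X) (hy : y ∈ C.Y j) (m : ℕ) (h : m ≤ C.ρ) :
    CV.ctr (CV.pt j y hy m) = y := by
  rcases Nat.eq_zero_or_pos m with h0 | h0
  · subst h0; rw [pt_zero]; rfl
  · rw [pt_mid j y hy m h0 h]; rfl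

lemma pt_ne_apex (j i : C.J) (y : X) (hy : y ∈ C.Y j) (m : ℕ) (h : m ≤ C.ρ) :
    CV.pt j y hy m ≠ CV.apex i := by
  rcases Nat.eq_zero_or_pos m with h0 | h0
  · subst h0; rw [pt_zero]; simp
  · rw [pt_mid j y hy m h0 h]; simp

lemma htj_pt (j : C.J) (y : X) (hy : y ∈ C.Y j) (m : ℕ) (h : m ≤ C.ρ + 1) :
    CV.htj j (CV.pt j y hy m) = m := by
  rcases Nat.eq_zero_or_pos m with h0 | h0
  · subst h0; rw [pt_zero]; rfl
  · rcases Nat.lt_or_ge C.ρ m with h1 | h1
    · rw [pt_top j y hy m h1]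
      simp [CV.htj]; omega
    · rw [pt_mid j y hy m h0 h1]
      simp [CV.htj]

/-- a vertex with positive height in the cone `j`, which is not the apex -/
lemma exists_of_htj_pos (j : C.J) (u : CV C) (hu : u ≠ CV.apex j) (h : 0 < CV.htj j u) :
    ∃ y hy, u = CV.pt j y hy (CV.htj j u) ∧ CV.htj j u ≤ C.ρ ∧ CV.ctr u = y := by
  cases u with
  | base x => simp [CV.htj] at h
  | cone i y hy k hk =>
    by_cases hij : i = j
    · subst hij
      refine ⟨y, hy, ?_, ?_, rfl⟩
      · simp only [CV.htj, if_true]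
        rw [pt_mid i y hy k hk.1 hk.2]
      · simp only [CV.htj, if_true]
        exact hk.2
    · simp [CV.htj, hij] at h
  | apex i =>
    by_cases hij : i = j
    · subst hij; exact absurd rfl hu
    · simp [CV.htj, hij] at h

lemma exists_nst (M : GMet X) (Y : Set X) (hY : Y.Nonempty) (x : X) : ∃ a, M.Nst Y x a := by
  classical
  obtain ⟨y, hy⟩ := hY
  have hex : ∃ n, ∃ a ∈ Y, M.d x a = n := ⟨_, y, hy, rfl⟩
  obtain ⟨a, ha, had⟩ := Nat.find_spec hex
  refine ⟨a, ha, fun y hy => ?_⟩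
  rw [had]
  exact Nat.find_min' hex ⟨y, hy, rfl⟩

lemma pr_nst (j : C.J) (x : X) : C.M.Nst (C.Y j) x (C.pr j x) := by
  unfold ConeDat.pr
  exact Classical.epsilon_spec (exists_nst C.M (C.Y j) (C.ne j) x)

lemma pr_mem (j : C.J) (x : X) : C.pr j x ∈ C.Y j := (pr_nst j x).1

lemma pr_of_mem (j : C.J) (x : X) (h : x ∈ C.Y j) : C.pr j x = x := by
  have h1 := (pr_nst (C := C) j x).2 x h
  rw [C.M.self] at h1
  exact (C.M.eq0 _ _ (Nat.le_zero.mp h1)).symm

end CVbasics

/-! ## The setting -/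

/-- the hypotheses on `MV` which are used -/
structure Sett {X : Type} (C : ConeDat X) (MV : GMet (CV C)) (H t : ℕ) : Prop where
  vert : ∀ (j : C.J) y hy k l, k ≤ l → MV.d (CV.pt j y hy k) (CV.pt j y hy l) ≤ l - k
  centres : ∀ a b, (∀ j, a ≠ CV.apex j) → (∀ j, b ≠ CV.apex j) → MV.d a b ≤ 1 →
    C.M.d (CV.ctr a) (CV.ctr b) ≤ 2 ^ C.ρ * C.S
  apexes : ∀ i j, i ≠ j → 2 * C.ρ + 2 ≤ MV.d (CV.apex i) (CV.apex j)
  nbr : ∀ j u, MV.d (CV.apex j) u = 1 → ∃ y hy, u = CV.pt j y hy C.ρ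
  low : ∀ (j : C.J) u, C.ρ + 1 ≤ CV.htj j u + MV.d u (CV.apex j)
  close : ∀ (j : C.J) u v, 2 ^ C.ρ * C.S < C.M.d (C.pr j (CV.ctr u)) (C.pr j (CV.ctr v)) →
    (∀ m, CV.htj j u ≤ m → m ≤ C.ρ + 1 → ∀ γ, MV.IsGeod γ u v →
      ∃ i ≤ MV.d u v, MV.d (CV.pt j (C.pr j (CV.ctr u)) (pr_mem j _) m) (γ i) ≤ H) ∧
    (∀ m, CV.htj j v ≤ m → m ≤ C.ρ + 1 → ∀ γ, MV.IsGeod γ u v →
      ∃ i ≤ MV.d u v, MV.d (CV.pt j (C.pr j (CV.ctr v)) (pr_mem j _) m) (γ i) ≤ H)
  hH : 100 * (H + 1) ≤ C.ρ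
  ht : t = 100 * (H + 1) * 2 ^ C.ρ * C.S

section Sett

variable {X : Type} {C : ConeDat X} {MV : GMet (CV C)} {H t : ℕ}

/-- centres along a path without apexes -/
lemma Sett.path (h : Sett C MV H t) : ∀ (n : ℕ) (γ : ℕ → CV C),
    (∀ i < n, MV.d (γ i) (γ (i + 1)) ≤ 1) → (∀ i ≤ n, ∀ j, γ i ≠ CV.apex j) →
    C.M.d (CV.ctr (γ 0)) (CV.ctr (γ n)) ≤ n * (2 ^ C.ρ * C.S) := by
  intro n
  induction n with
  | zero => intro γ _ _; rw [C.M.self]; omega
  | succ n ih =>
    intro γ h1 h2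
    have a := ih γ (fun i hi => h1 i (by omega)) (fun i hi => h2 i (by omega))
    have b := h.centres (γ n) (γ (n + 1)) (h2 n (by omega)) (h2 (n + 1) le_rfl) (h1 n (by omega))
    have c := C.M.tri (CV.ctr (γ 0)) (CV.ctr (γ n)) (CV.ctr (γ (n + 1)))
    have e : (n + 1) * (2 ^ C.ρ * C.S) = n * (2 ^ C.ρ * C.S) + 2 ^ C.ρ * C.S := by ring
    omega

/-- centres of two points `a, b` such that all the points on some geodesic are not apexes -/
lemma Sett.btw_centres (h : Sett C MV H t) (a b : CV C)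
    (hab : ∀ w, MV.Btw a w b → ∀ j, w ≠ CV.apex j) :
    C.M.d (CV.ctr a) (CV.ctr b) ≤ MV.d a b * (2 ^ C.ρ * C.S) := by
  obtain ⟨γ, hγ⟩ := MV.exists_isGeod a b
  have := h.path (MV.d a b) γ (fun i hi => le_of_eq (hγ.step hi))
    (fun i hi => hab _ (hγ.btw hi))
  rwa [hγ.1, hγ.2.1] at this

/-- the point close to the entry point of a geodesic to the cone -/
lemma Sett.entry (h : Sett C MV H t) (j : C.J) (u : CV C) (hu : u ≠ CV.apex j)
    (γ : ℕ → CV C) (N : ℕ) (hNu : ∃ i ≤ N, γ i = u)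
    (hγ : ∀ m, CV.htj j u ≤ m → m ≤ C.ρ + 1 →
      ∃ i ≤ N, MV.d (CV.pt j (C.pr j (CV.ctr u)) (pr_mem j _) m) (γ i) ≤ H) :
    ∃ i ≤ N, MV.d (γ i) (CV.apex j) ≤ 3 * H + 1 ∧
      C.M.d (C.pr j (CV.ctr u)) (CV.ctr (γ i)) ≤ H * (2 ^ C.ρ * C.S) := by
  have hH := h.hH
  by_cases hht : CV.htj j u ≤ C.ρ + 1 - (2 * H + 1)
  · obtain ⟨i, hi, hd⟩ := hγ (C.ρ + 1 - (2 * H + 1)) hht (by omega)
    set w := CV.pt j (C.pr j (CV.ctr u)) (pr_mem j _) (C.ρ + 1 - (2 * H + 1)) with hw
    have e1 : MV.d w (CV.apex j) ≤ 2 * H + 1 := by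
      have := h.vert j (C.pr j (CV.ctr u)) (pr_mem j _) (C.ρ + 1 - (2 * H + 1)) (C.ρ + 1)
        (by omega)
      rw [pt_top j _ _ (C.ρ + 1) (by omega), ← hw] at this
      omega
    have e2 : 2 * H + 1 ≤ MV.d w (CV.apex j) := by
      have h1 := h.low j w
      have h2 : CV.htj j w = C.ρ + 1 - (2 * H + 1) := htj_pt j _ _ _ (by omega)
      omega
    refine ⟨i, hi, ?_, ?_⟩
    · have := MV.tri (γ i) w (CV.apex j)
      have := MV.symm (γ i) w
      omega
    · have hc := h.btw_centres w (γ i) (by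
        intro w' hw' i' hne
        have hb : MV.d w w' + MV.d w' (γ i) = MV.d w (γ i) := hw'
        by_cases hij : i' = j
        · subst hij
          rw [hne] at hb
          omega
        · have a1 := h.apexes i' j hij
          rw [hne] at hb
          have a2 := MV.tri (CV.apex i') w (CV.apex j)
          have a3 := MV.symm (CV.apex i') w
          omega)
      have hcw : CV.ctr w = C.pr j (CV.ctr u) := ctr_pt j _ _ _ (by omega)
      rw [hcw] at hc
      exact hc.trans (Nat.mul_le_mul_right _ hd)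
  · obtain ⟨y, hy, e1, e2, e3⟩ := exists_of_htj_pos j u hu (by omega)
    obtain ⟨i, hi, hiu⟩ := hNu
    refine ⟨i, hi, ?_, ?_⟩
    · rw [hiu]
      have := h.vert j y hy (CV.htj j u) (C.ρ + 1) (by omega)
      rw [← e1, pt_top j _ _ (C.ρ + 1) (by omega)] at this
      omega
    · rw [hiu, e3, pr_of_mem j y hy, C.M.self]
      omega

/-- K1 -/
theorem Sett.K1 (h : Sett C MV H t) (j : C.J) (u v : CV C) (hu : u ≠ CV.apex j)
    (hv : v ≠ CV.apex j) (ht : t < C.M.d (C.pr j (CV.ctr u)) (C.pr j (CV.ctr v))) :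
    MV.Sep u (CV.apex j) v := by
  have hH := h.hH
  have hteq := h.ht
  set Q := 2 ^ C.ρ * C.S with hQ
  have hQpos : 0 < Q := Nat.mul_pos (by positivity) (by have := C.hS; omega)
  have htQ : t = 100 * (H + 1) * Q := by rw [hteq, hQ]; ring
  have hlt : Q < C.M.d (C.pr j (CV.ctr u)) (C.pr j (CV.ctr v)) := by
    refine lt_of_le_of_lt ?_ ht
    rw [htQ]
    exact Nat.le_mul_of_pos_left _ (by positivity)
  -- every geodesic passes through the apex
  have key : ∀ γ, MV.IsGeod γ u v → ∃ i ≤ MV.d u v, γ i = CV.apex j := by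
    intro γ hγ
    by_contra hcon
    push Not at hcon
    obtain ⟨c1, c2⟩ := h.close j u v hlt
    obtain ⟨i, hi, a1, a2⟩ := h.entry j u hu γ (MV.d u v) ⟨0, by omega, hγ.1⟩
      (fun m h1 h2 => c1 m h1 h2 γ hγ)
    obtain ⟨i', hi', b1, b2⟩ := h.entry j v hv γ (MV.d u v) ⟨_, le_rfl, hγ.2.1⟩
      (fun m h1 h2 => c2 m h1 h2 γ hγ)
    -- centres along `γ` between `i` and `i'`
    have main : ∀ i i', i ≤ i' → i' ≤ MV.d u v → MV.d (γ i) (CV.apex j) ≤ 3 * H + 1 →
        MV.d (γ i') (CV.apex j) ≤ 3 * H + 1 →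
        C.M.d (CV.ctr (γ i)) (CV.ctr (γ i')) ≤ (6 * H + 2) * Q := by
      intro i i' hii' hi' a1 b1
      have e := hγ.2.2 i i' hii' hi'
      have t1 := MV.tri (γ i) (CV.apex j) (γ i')
      have s1 := MV.symm (CV.apex j) (γ i')
      have hle : i' - i ≤ 6 * H + 2 := by omega
      have hp := h.path (i' - i) (fun k => γ (i + k)) (by
        intro k hk
        have := hγ.2.2 (i + k) (i + k + 1) (by omega) (by omega)
        show MV.d (γ (i + k)) (γ (i + (k + 1))) ≤ 1
        rw [← add_assoc]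
        omega) (by
        intro k hk l hl
        by_cases hlj : l = j
        · subst hlj
          exact hcon (i + k) (by omega) hl
        · have a := h.apexes l j hlj
          have hl' : γ (i + k) = CV.apex l := hl
          rw [← hl'] at a
          have b := hγ.2.2 i (i + k) (by omega) (by omega)
          have c := MV.tri (γ (i + k)) (γ i) (CV.apex j)
          have d := MV.symm (γ (i + k)) (γ i)
          omega)
      simp only [add_zero] at hp
      have e2 : i + (i' - i) = i' := by omega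
      rw [e2] at hp
      exact hp.trans (Nat.mul_le_mul_right _ hle)
    have fin : C.M.d (CV.ctr (γ i)) (CV.ctr (γ i')) ≤ (6 * H + 2) * Q := by
      rcases le_total i i' with hii | hii
      · exact main i i' hii hi' a1 b1
      · have := main i' i hii hi b1 a1
        rwa [C.M.symm] at this
    have t1 := C.M.tri (C.pr j (CV.ctr u)) (CV.ctr (γ i)) (C.pr j (CV.ctr v))
    have t2 := C.M.tri (CV.ctr (γ i)) (CV.ctr (γ i')) (C.pr j (CV.ctr v))
    have s1 := C.M.symm (CV.ctr (γ i')) (C.pr j (CV.ctr v))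
    rw [← hQ] at a2 b2
    have hbound : C.M.d (C.pr j (CV.ctr u)) (C.pr j (CV.ctr v)) ≤ (8 * H + 2) * Q := by
      have e : (8 * H + 2) * Q = H * Q + (6 * H + 2) * Q + H * Q := by ring
      omega
    have : (8 * H + 2) * Q ≤ t := by
      rw [htQ]
      exact Nat.mul_le_mul_right _ (by omega)
    omega
  have hdist : ∀ γ, MV.IsGeod γ u v → γ (MV.d u (CV.apex j)) = CV.apex j ∧
      MV.d u (CV.apex j) ≤ MV.d u v := by
    intro γ hγ
    obtain ⟨i, hi, hia⟩ := key γ hγ
    have := hγ.dist_left hi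
    rw [hia] at this
    rw [this]
    exact ⟨hia, hi⟩
  constructor
  · obtain ⟨γ, hγ⟩ := MV.exists_isGeod u v
    obtain ⟨e1, e2⟩ := hdist γ hγ
    have := hγ.btw e2
    rwa [e1] at this
  · intro w hw hwd
    obtain ⟨γ, hγ, hγw⟩ := GMet.B1 _ MV u w v hw
    obtain ⟨e1, e2⟩ := hdist γ hγ
    rw [← hγw, hwd, e1]

/-! ## The directions -/

/-- the directions of the geodesics from the apex `j` to `z` -/
def Dir (MV : GMet (CV C)) (j : C.J) (z : CV C) : Set X :=
  {y | ∃ hy : y ∈ C.Y j, MV.Btw (CV.apex j) (CV.pt j y hy C.ρ) z}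

lemma Sett.dir_nonempty (h : Sett C MV H t) (j : C.J) (z : CV C) (hz : z ≠ CV.apex j) :
    (Dir MV j z).Nonempty := by
  have hpos : 1 ≤ MV.d (CV.apex j) z := by
    by_contra hcon
    exact hz (MV.eq0 _ _ (by omega)).symm
  obtain ⟨w, hw, hd⟩ := MV.exists_pt (CV.apex j) z 1 hpos
  obtain ⟨y, hy, e⟩ := h.nbr j w hd
  exact ⟨y, hy, by rw [← e]; exact hw⟩

lemma Sett.dir_close (h : Sett C MV H t) (j : C.J) (z : CV C) (hz : z ≠ CV.apex j) (y : X)
    (hy : y ∈ Dir MV j z) : C.M.d y (C.pr j (CV.ctr z)) ≤ t := by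
  obtain ⟨hyY, hb⟩ := hy
  by_contra hcon
  push Not at hcon
  have hne := pt_ne_apex j j y hyY C.ρ le_rfl
  have hs := h.K1 j (CV.pt j y hyY C.ρ) z hne hz (by
    rw [ctr_pt j y hyY _ le_rfl, pr_of_mem j y hyY]
    exact hcon)
  have h1 : MV.d (CV.pt j y hyY C.ρ) (CV.apex j) + MV.d (CV.apex j) z =
    MV.d (CV.pt j y hyY C.ρ) z := hs.1
  have h2 : MV.d (CV.apex j) (CV.pt j y hyY C.ρ) + MV.d (CV.pt j y hyY C.ρ) z =
    MV.d (CV.apex j) z := hb
  have h3 := MV.symm (CV.apex j) (CV.pt j y hyY C.ρ)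
  have h4 : MV.d (CV.pt j y hyY C.ρ) (CV.apex j) ≠ 0 := fun h0 => hne (MV.eq0 _ _ h0)
  omega

lemma dir_of_sep (h : Sett C MV H t) (j : C.J) (w z : CV C) (hw : w ≠ CV.apex j)
    (hs : MV.Sep (CV.apex j) w z) : Dir MV j w = Dir MV j z := by
  obtain ⟨hb, hu⟩ := hs
  have hb' : MV.d (CV.apex j) w + MV.d w z = MV.d (CV.apex j) z := hb
  ext y
  constructor
  · rintro ⟨hy, h1⟩
    exact ⟨hy, GMet.btw_trans_left hb h1⟩
  · rintro ⟨hy, h1⟩
    refine ⟨hy, ?_⟩
    set u := CV.pt j y hy C.ρ with hudef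
    have h1' : MV.d (CV.apex j) u + MV.d u z = MV.d (CV.apex j) z := h1
    have hu1 : MV.d (CV.apex j) u = 1 := by
      have a := h.vert j y hy C.ρ (C.ρ + 1) (by omega)
      rw [pt_top j y hy (C.ρ + 1) (by omega), MV.symm, ← hudef] at a
      have b : MV.d (CV.apex j) u ≠ 0 := fun h0 =>
        pt_ne_apex j j y hy C.ρ le_rfl (MV.eq0 _ _ h0).symm
      omega
    have hw1 : MV.d (CV.apex j) w ≠ 0 := fun h0 => hw (MV.eq0 _ _ h0).symm
    obtain ⟨w', hw', hd⟩ := MV.exists_pt u z (MV.d (CV.apex j) w - 1) (by omega)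
    have hb2 : MV.Btw (CV.apex j) w' z := GMet.btw_trans_right h1 hw'
    have hw'' : MV.d u w' + MV.d w' z = MV.d u z := hw'
    have hb2' : MV.d (CV.apex j) w' + MV.d w' z = MV.d (CV.apex j) z := hb2
    have e : w' = w := hu w' hb2 (by omega)
    subst e
    show MV.d (CV.apex j) u + MV.d u w' = MV.d (CV.apex j) w'
    omega

/-! ## The angles -/

/-- the two sets `A`, `B` are at Hausdorff distance at most `r` -/
def Haus (M : GMet X) (A B : Set X) (r : ℕ) : Prop :=
  (∀ a ∈ A, ∃ b ∈ B, M.d a b ≤ r) ∧ (∀ b ∈ B, ∃ a ∈ A, M.d a b ≤ r)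

/-- the angle -/
noncomputable def angle (MV : GMet (CV C)) (j : C.J) (x y : CV C) : ℕ :=
  sInf {r | Haus C.M (Dir MV j x) (Dir MV j y) r}

lemma Sett.haus_le (h : Sett C MV H t) (j : C.J) (x y : CV C) (hx : x ≠ CV.apex j)
    (hy : y ≠ CV.apex j) : Haus C.M (Dir MV j x) (Dir MV j y)
      (C.M.d (C.pr j (CV.ctr x)) (C.pr j (CV.ctr y)) + 2 * t) := by
  have key : ∀ a ∈ Dir MV j x, ∀ b ∈ Dir MV j y, C.M.d a b ≤
      C.M.d (C.pr j (CV.ctr x)) (C.pr j (CV.ctr y)) + 2 * t := by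
    intro a ha b hb
    have h1 := h.dir_close j x hx a ha
    have h2 := h.dir_close j y hy b hb
    have t1 := C.M.tri a (C.pr j (CV.ctr x)) b
    have t2 := C.M.tri (C.pr j (CV.ctr x)) (C.pr j (CV.ctr y)) b
    have s1 := C.M.symm (C.pr j (CV.ctr y)) b
    omega
  constructor
  · intro a ha
    obtain ⟨b, hb⟩ := h.dir_nonempty j y hy
    exact ⟨b, hb, key a ha b hb⟩
  · intro b hb
    obtain ⟨a, ha⟩ := h.dir_nonempty j x hx
    exact ⟨a, ha, key a ha b hb⟩

lemma Sett.angle_haus (h : Sett C MV H t) (j : C.J) (x y : CV C) (hx : x ≠ CV.apex j)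
    (hy : y ≠ CV.apex j) : Haus C.M (Dir MV j x) (Dir MV j y) (angle MV j x y) := by
  have := Nat.sInf_mem (s := {r | Haus C.M (Dir MV j x) (Dir MV j y) r})
    ⟨_, h.haus_le j x y hx hy⟩
  exact this

lemma angle_le {j : C.J} {x y : CV C} {r : ℕ}
    (hr : Haus C.M (Dir MV j x) (Dir MV j y) r) : angle MV j x y ≤ r :=
  Nat.sInf_le hr

lemma Haus.symm {M : GMet X} {A B : Set X} {r : ℕ} (h : Haus M A B r) : Haus M B A r := by
  obtain ⟨h1, h2⟩ := h
  constructor
  · intro b hb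
    obtain ⟨a, ha, hd⟩ := h2 b hb
    exact ⟨a, ha, by rw [M.symm]; exact hd⟩
  · intro a ha
    obtain ⟨b, hb, hd⟩ := h1 a ha
    exact ⟨b, hb, by rw [M.symm]; exact hd⟩

lemma Haus.tri {M : GMet X} {A B D : Set X} {r s : ℕ} (h : Haus M A B r) (h' : Haus M B D s) :
    Haus M A D (r + s) := by
  obtain ⟨h1, h2⟩ := h
  obtain ⟨h3, h4⟩ := h'
  constructor
  · intro a ha
    obtain ⟨b, hb, hd⟩ := h1 a ha
    obtain ⟨c, hc, hd'⟩ := h3 b hb
    exact ⟨c, hc, (M.tri a b c).trans (by omega)⟩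
  · intro c hc
    obtain ⟨b, hb, hd⟩ := h4 c hc
    obtain ⟨a, ha, hd'⟩ := h2 b hb
    exact ⟨a, ha, (M.tri a b c).trans (by omega)⟩

end Sett

/-! ## The theorem -/

theorem K_of_CO (hCO : COStatement) : KStatement := by
  intro X C δ q e hCH MV H t Lx hunit hclose hL hH ht G _ _ _ _ rot b hisoX hbase hapex hcone
    hconj hfix hdisp hb
  -- the properties of `COStatement`
  obtain ⟨MV', c1, c2, c3, c4, c5, c6, c7, c8, c9, c10, c11, c12, c13, c14, c15⟩ := hCO X C
  have hMV : ∀ u v, MV'.d u v = MV.d u v := by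
    intro u v
    exact (d_eq_of_unit MV MV' (fun u v => (hunit u v).trans (c1 u v).symm) u v).symm
  have sett : Sett C MV H t :=
    { vert := fun j y hy k l hkl => by rw [← hMV]; exact c4 j y hy k l hkl
      centres := fun a b ha hb hab => c7 a b ha hb (by rw [hMV]; exact hab)
      apexes := fun i j hij => by rw [← hMV]; exact c10 i j hij
      nbr := fun j u hu => c11 j u (by rw [hMV]; exact hu)
      low := fun j u => by rw [← hMV]; exact c14 j u
      close := fun j u v huv => by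
        obtain ⟨l1, l2⟩ := hL j u v (pr_mem j _) (pr_mem j _) huv
        exact ⟨fun m h1 h2 γ hγ => hclose u v γ hγ _ (l1 m h1 h2),
          fun m h1 h2 γ hγ => hclose u v γ hγ _ (l2 m h1 h2)⟩
      hH := hH
      ht := ht }
  -- the action on the points of the cones
  have hYact : ∀ (g : G) (j : C.J) y, y ∈ C.Y j → g • y ∈ C.Y (g • j) := by
    intro g j y hy
    obtain ⟨hy', _⟩ := hcone g j y hy 1 ⟨le_rfl, by have := C.hρ; omega⟩
    exact hy'
  have hpt : ∀ (g : G) (j : C.J) y (hy : y ∈ C.Y j) k,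
      g • (CV.pt j y hy k : CV C) = CV.pt (g • j) (g • y) (hYact g j y hy) k := by
    intro g j y hy k
    rcases Nat.eq_zero_or_pos k with h0 | h0
    · subst h0
      rw [pt_zero, pt_zero, hbase]
    · rcases Nat.lt_or_ge C.ρ k with h1 | h1
      · rw [pt_top _ _ _ _ h1, pt_top _ _ _ _ h1, hapex]
      · rw [pt_mid _ _ _ _ h0 h1, pt_mid _ _ _ _ h0 h1]
        obtain ⟨hy', e⟩ := hcone g j y hy k ⟨h0, h1⟩
        exact e
  have hE : ∀ (g : G) (u v : CV C), CV.E u v → CV.E (g • u) (g • v) := by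
    intro g u v huv
    cases huv with
    | base x x' h => rw [hbase, hbase]; exact CV.E.base _ _ (by rw [hisoX]; exact h)
    | vert j y hy k => rw [hpt, hpt]; exact CV.E.vert _ _ _ _
    | horiz j y y' hy hy' k h =>
      rw [hpt, hpt]; exact CV.E.horiz _ _ _ _ _ _ (by rw [hisoX]; exact h)
  have hiso : Iso G MV := by
    apply iso_of_unit
    intro g u v huv
    rw [hunit] at huv ⊢
    rcases huv with h | h | h
    · exact Or.inl (by rw [h])
    · exact Or.inr (Or.inl (hE g u v h))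
    · exact Or.inr (Or.inr (hE g v u h))
  have hinj : Function.Injective (CV.apex : C.J → CV C) := by
    intro i j hij
    injection hij
  -- equivariance of the directions
  have hdir : ∀ (g : G) (j : C.J) (x : CV C) (y : X), y ∈ Dir MV j x →
      g • y ∈ Dir MV (g • j) (g • x) := by
    rintro g j x y ⟨hy, hbt⟩
    refine ⟨hYact g j y hy, ?_⟩
    unfold GMet.Btw at *
    rw [← hpt, ← hapex, hiso, hiso, hiso]
    exact hbt
  have hdir' : ∀ (g : G) (j : C.J) (x : CV C) (y : X), y ∈ Dir MV (g • j) (g • x) →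
      ∃ y' ∈ Dir MV j x, y = g • y' := by
    intro g j x y hy
    have := hdir g⁻¹ (g • j) (g • x) y hy
    rw [inv_smul_smul, inv_smul_smul] at this
    exact ⟨_, this, by rw [smul_inv_smul]⟩
  have hHaus : ∀ (g : G) (j : C.J) (x y : CV C) (r : ℕ),
      Haus C.M (Dir MV j x) (Dir MV j y) r →
      Haus C.M (Dir MV (g • j) (g • x)) (Dir MV (g • j) (g • y)) r := by
    rintro g j x y r ⟨h1, h2⟩
    constructor
    · intro a ha
      obtain ⟨a', ha', rfl⟩ := hdir' g j x a ha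
      obtain ⟨b', hb', hd⟩ := h1 a' ha'
      exact ⟨g • b', hdir g j y b' hb', by rw [hisoX]; exact hd⟩
    · intro a ha
      obtain ⟨a', ha', rfl⟩ := hdir' g j y a ha
      obtain ⟨b', hb', hd⟩ := h2 a' ha'
      exact ⟨g • b', hdir g j x b' hb', by rw [hisoX]; exact hd⟩
  refine ⟨angle MV, ?_⟩
  refine
    { iso := hiso
      inj := hinj
      eqv := hapex
      rot_conj := hconj
      rot_fix := hfix
      ang_self := ?_
      ang_symm := ?_
      ang_tri := ?_
      ang_eqv := ?_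
      ang_sep := ?_
      ang_zero := ?_
      ang_rot := ?_
      big := by omega }
  · -- ang_self
    intro j x hx
    have : angle MV j x x ≤ 0 := angle_le ⟨fun a ha => ⟨a, ha, by rw [C.M.self]⟩,
      fun a ha => ⟨a, ha, by rw [C.M.self]⟩⟩
    omega
  · -- ang_symm
    intro j x y hx hy
    exact le_antisymm (angle_le (sett.angle_haus j y x hy hx).symm)
      (angle_le (sett.angle_haus j x y hx hy).symm)
  · -- ang_tri
    intro j x y z hx hy hz
    exact angle_le ((sett.angle_haus j x y hx hy).tri (sett.angle_haus j y z hy hz))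
  · -- ang_eqv
    intro g j x y hx hy
    have hx' : g • x ≠ CV.apex (g • j) := by
      intro h0
      rw [← hapex] at h0
      exact hx (MulAction.injective g h0)
    have hy' : g • y ≠ CV.apex (g • j) := by
      intro h0
      rw [← hapex] at h0
      exact hy (MulAction.injective g h0)
    apply le_antisymm
    · exact angle_le (hHaus g j x y _ (sett.angle_haus j x y hx hy))
    · have := hHaus g⁻¹ (g • j) (g • x) (g • y) _ (sett.angle_haus (g • j) (g • x) (g • y) hx' hy')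
      rw [inv_smul_smul, inv_smul_smul, inv_smul_smul] at this
      exact angle_le this
  · -- ang_sep
    intro j x y hx hy hlt
    apply sett.K1 j x y hx hy
    have := angle_le (sett.haus_le j x y hx hy)
    omega
  · -- ang_zero
    intro j w z hw hz hs
    have e := dir_of_sep sett j w z hw hs
    have : angle MV j w z ≤ 0 := by
      apply angle_le
      rw [e]
      exact ⟨fun a ha => ⟨a, ha, by rw [C.M.self]⟩, fun a ha => ⟨a, ha, by rw [C.M.self]⟩⟩
    omega
  · -- ang_rot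
    intro j z k hz
    rcases eq_or_ne k 0 with h0 | h0
    · subst h0; simp
    have hkj : rot j ^ k • j = j := by
      have hmem : rot j ∈ MulAction.stabilizer G j := hfix j
      exact Subgroup.zpow_mem _ hmem k
    have hz' : rot j ^ k • z ≠ CV.apex j := by
      intro h1
      have : rot j ^ k • z = rot j ^ k • CV.apex j := by rw [hapex, hkj, h1]
      exact hz (MulAction.injective _ this)
    obtain ⟨y, hy⟩ := sett.dir_nonempty j z hz
    have hy2 := hdir (rot j ^ k) j z y hy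
    rw [hkj] at hy2
    obtain ⟨a, ha, hd⟩ := (sett.angle_haus j z (rot j ^ k • z) hz hz').2 _ hy2
    have d1 := sett.dir_close j z hz y hy
    have d2 := sett.dir_close j z hz a ha
    have d3 := hdisp j k y hy.1
    have t1 := C.M.tri y (C.pr j (CV.ctr z)) a
    have t2 := C.M.tri y a (rot j ^ k • y)
    have s1 := C.M.symm (C.pr j (CV.ctr z)) a
    have hk : 1 ≤ k.natAbs := by omega
    have hk2 : (b - 2 * t) * k.natAbs + 2 * t ≤ b * k.natAbs := by
      have e1 : (b - 2 * t) * k.natAbs + 2 * t * k.natAbs = b * k.natAbs := by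
        rw [← Nat.add_mul]
        congr 1
        omega
      have e2 : 2 * t ≤ 2 * t * k.natAbs := Nat.le_mul_of_pos_right _ (by omega)
      omega
    omega

end Kmod

end Pool.Agent.Lib.MP_7f190d_al
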